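import Pool.Agent.H74.So3

namespace Pool.Agent.Results.MP_e22fa6_co.Sorted
open Finset

/-- The coalition of agent `i` in the structure whose (at most two) coalitions are the nonempty
colour classes of `c`. -/
def coal {n : ℕ} (c : Fin n → Bool) (i : Fin n) : Finset (Fin n) := univ.filter (fun j => c j = c i)

/-- Average cost of `i` in `C`; a singleton costs `⊤` if `uis` holds (UIS) and `0` otherwise (HIS). -/
noncomputable def cost {n : ℕ} (uis : Bool) (v : Fin n → ℝ) (C : Finset (Fin n)) (i : Fin n) :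
    WithTop ℝ :=
  if C.card = 1 then (if uis then ⊤ else 0)
  else (((∑ j ∈ C.erase i, |v i - v j|) / ((C.card : ℝ) - 1) : ℝ) : WithTop ℝ)

/-- Social cost. -/
noncomputable def SC {n : ℕ} (uis : Bool) (v : Fin n → ℝ) (c : Fin n → Bool) : WithTop ℝ :=
  ∑ i, cost uis v (coal c i) i

/-- Sorted structure. -/
def IsSorted {n : ℕ} (v : Fin n → ℝ) (c : Fin n → Bool) : Prop :=
  ∀ i j l, j ∈ coal c i → min (v i) (v j) ≤ v l → v l ≤ max (v i) (v j) → l ∈ coal c i

open Pool.Agent.H74.So

theorem sum_cost {n : ℕ} (u : Bool) (v : Fin n → ℝ) (C : Finset (Fin n))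
    (h : u = false ∨ C.card ≠ 1) : ∑ i ∈ C, cost u v C i = (W v C : ℝ) := by
  by_cases h1 : C.card = 1
  · have hu : u = false := by tauto
    simp [cost, h1, hu, W]
  · simp only [cost, if_neg h1]
    rw [← WithTop.coe_sum, W, sum_div]
    congr 1
    refine sum_congr rfl fun i _ => ?_
    rw [sum_erase _ (by simp)]

theorem SC_split {n : ℕ} (u : Bool) (v : Fin n → ℝ) (c : Fin n → Bool) :
    SC u v c = ∑ i ∈ univ.filter (fun j => c j = true), cost u v (univ.filter (fun j => c j = true)) i
      + ∑ i ∈ (univ.filter (fun j => c j = true))ᶜ,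
        cost u v (univ.filter (fun j => c j = true))ᶜ i := by
  unfold SC
  rw [← sum_add_sum_compl (univ.filter (fun j => c j = true))]
  congr 1
  · refine sum_congr rfl fun i hi => ?_
    have : c i = true := by simpa using hi
    rw [coal, this]
  · refine sum_congr rfl fun i hi => ?_
    have : c i = false := by simpa using hi
    congr 1
    ext j
    simp [coal, this]

theorem SC_real {n : ℕ} (u : Bool) (v : Fin n → ℝ) (c : Fin n → Bool) (A : Finset (Fin n))
    (hA : univ.filter (fun j => c j = true) = A) (h : u = false ∨ (A.card ≠ 1 ∧ Aᶜ.card ≠ 1)) :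
    SC u v c = (F v A : ℝ) := by
  rw [SC_split, hA, sum_cost u v A (by tauto), sum_cost u v Aᶜ (by tauto), F, WithTop.coe_add]

theorem sum_top {n : ℕ} (v : Fin n → ℝ) (C : Finset (Fin n)) (h : C.card = 1) :
    ∑ i ∈ C, cost true v C i = ⊤ := by
  simp [cost, h]

theorem sorted_cut {n : ℕ} {v : Fin n → ℝ} (hv : Monotone v) {s : ℕ} (hg : Good n (gap v) s) :
    IsSorted v (fun i => decide (i.val < s)) := by
  intro i j l hj h1 h2
  simp only [coal, mem_filter, mem_univ, true_and, decide_eq_decide] at hj ⊢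
  constructor
  · intro hl
    by_contra hi
    have a := good_sep hv hg l i hl hi
    have b := good_sep hv hg l j hl (fun h => hi (hj.1 h))
    exact absurd h1 (not_le.2 (lt_min a b))
  · intro hi
    by_contra hl
    have a := good_sep hv hg i l hi hl
    have b := good_sep hv hg j l (hj.2 hi) hl
    exact absurd h2 (not_le.2 (max_lt a b))

theorem result (uis : Bool) (n : ℕ) (hn : 2 ≤ n) (v : Fin n → ℝ) (hv : Monotone v) :
    ∃ c : Fin n → Bool, IsSorted v c ∧ ∀ c' : Fin n → Bool, SC uis v c ≤ SC uis v c' := by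
  have hcs : ∀ s, univ.filter (fun j : Fin n => decide (j.val < s) = true) = Cs n s := by
    intro s
    ext j
    simp [Cs]
  cases uis with
  | false =>
    obtain ⟨s, _, hg, h⟩ := his hv hn
    refine ⟨fun i => decide (i.val < s), sorted_cut hv hg, fun c' => ?_⟩
    rw [SC_real _ _ _ _ (hcs s) (Or.inl rfl), SC_real _ _ c' _ rfl (Or.inl rfl)]
    exact WithTop.coe_le_coe.2 (h _)
  | true =>
    obtain ⟨s, hs, h1, h2, hg, h⟩ := Pool.Agent.H74.So.uis hv hn
    refine ⟨fun i => decide (i.val < s), sorted_cut hv hg, fun c' => ?_⟩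
    by_cases e1 : (univ.filter (fun j => c' j = true)).card = 1
    · rw [SC_split _ _ c', sum_top v _ e1, WithTop.top_add]
      exact le_top
    by_cases e2 : (univ.filter (fun j => c' j = true))ᶜ.card = 1
    · rw [SC_split _ _ c', sum_top v _ e2, WithTop.add_top]
      exact le_top
    have hc := card_add_card_compl (Cs n s)
    rw [Fintype.card_fin, card_Cs hs] at hc
    rw [SC_real _ _ _ _ (hcs s) (Or.inr ⟨by rw [card_Cs hs]; exact h1, by omega⟩),
      SC_real _ _ c' _ rfl (Or.inr ⟨e1, e2⟩)]
    exact WithTop.coe_le_coe.2 (h _ e1 e2)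

end Pool.Agent.Results.MP_e22fa6_co.Sorted
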